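import Pool.Agent.Q193.LT.Cyc

/-!
# The `p`-adic étale Abel–Jacobi map and cubic hypersurfaces over `ℚ`

Let `p` be a prime number. For a smooth projective scheme `Y` over `ℚ` let `A^n(Y) = CH^n(Y) ⊗ ℚ`, and let
`B^n_p(Y)` be the image of `A^n(Y)` in `H^{2n}_cont(Y, ℚ_p(n)) / F^2`, where `F` is the filtration of the
Hochschild–Serre spectral sequence; this is an extension of a subgroup of `H^0(ℚ, H^{2n}(Y, ℚ_p(n)))` by a
subgroup of `H^1(ℚ, H^{2n-1}(Y, ℚ_p(n)))`. Both are additive functors of the Chow motive of `Y`, and the
kernel of the surjection `A^n(Y) → B^n_p(Y)` is the kernel of `AJ_p : CH^n(Y)^0_ℚ → H^1(ℚ, V^{2n-1}_p(Y))`.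

For a separated scheme `X` of finite type over `ℚ` let `W(X)` be the weight complex (Gillet, Soulé; a
complex of Chow motives over `ℚ` with rational coefficients, for the cohomology with compact supports;
`W(X) = h(X)` for smooth projective `X`), and put `A^{n,i}(X) = H^i(A^n(W(X)))` and
`B_p^{n,i}(X) = H^i(B_p^n(W(X)))`. `BijAll (C p) X` says that the maps `A^{n,i}(X) → B_p^{n,i}(X)` are
isomorphisms for all `n` and `i`. For smooth projective `Y` over `ℚ` the groups for `i ≠ 0` are zero, and
`BijAll (C p) Y` says that `AJ_p` is injective on `CH^n(Y)^0` for all `n`.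

A motive `M = (X, e, n)` over a number field `K` is a direct factor of `(X, 1, n)`, and `AJ_p` for `M` is
the restriction of `AJ_p` for `(X, 1, n)` to the images of `e`. So question Q1 is about the motives
`(X, 1, n)`. A smooth projective scheme `Y` over `K` is also a smooth projective scheme over `ℚ` of the same
dimension, with the same Chow groups, and with the same Galois cohomology by Shapiro's lemma.

For a finite set `H` of triples `(i, j, l)` (a tripartite hypergraph) let `X_H` be the smooth affine cubic
hypersurface `∑_{(i, j, l) ∈ H} x_i y_j z_l = 1` over `ℚ`.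

**Theorem.** (1) For each prime `p`, the maps `AJ_p` are injective for all number fields `K` and all Chow
motives over `K` if and only if the maps `A^{n,i}(X_H) → B_p^{n,i}(X_H)` are isomorphisms for all finite
sets `H` of triples.

(2) For each prime `p` and all `n`, the maps `AJ_p` are injective for all number fields `K` and all smooth
projective schemes of dimension at most `n` over `K` if and only if the maps are isomorphisms for the
hypersurfaces `T(x, y, z) = 1` of all trilinear forms `T` with rational coefficients such that one of the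
three blocks of variables has at most `n + 2` variables (the other two blocks are arbitrary).

(3) Unconditionally, the maps are isomorphisms if one of the blocks has at most three variables.
-/

set_option autoImplicit false

open CategoryTheory CategoryTheory.Limits AlgebraicGeometry Pool.Agent.Y116.UV Pool.Agent.Z125.UN
  Pool.Agent.Q193.LT

universe w w'

namespace Pool.Agent.Results.MP_386e47_ag.AllNumberFields

/-- The groups `CH^n(Y)^0` and `H^1(K, V^{2n-1}_p(Y))`, with `V^{2n-1}_p(Y) = H^{2n-1}(Y, ℚ_p(n))`, and the
maps `AJ_p` between them, for a number field `K`, a prime number `p` and schemes `Y` over `K`. -/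
structure AbelJacobi where
  /-- the cycles homologous to zero, with rational coefficients -/
  CH0 : ∀ (K : Type) [Field K] [NumberField K], ℕ → Sch K → ModuleCat.{w'} ℚ
  /-- the Galois cohomology groups -/
  H1 : ∀ (K : Type) [Field K] [NumberField K], Nat.Primes → ℕ → Sch K → ModuleCat.{w'} ℚ
  /-- the `p`-adic étale Abel–Jacobi maps -/
  AJ : ∀ (K : Type) [Field K] [NumberField K] (p : Nat.Primes) (n : ℕ) (Y : Sch K),
    CH0 K n Y ⟶ H1 K p n Y

/-- The maps `AJ_p` are injective for `Y` in all codimensions. -/
def InjectiveFor (D : AbelJacobi.{w'}) (p : Nat.Primes) (K : Type) [Field K] [NumberField K]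
    (Y : Sch K) : Prop :=
  ∀ n : ℕ, Function.Injective (D.AJ K p n Y).hom

/-- The maps `AJ_p` are injective for all number fields and all smooth projective schemes: question Q1
for the prime number `p`. -/
def AllFields (D : AbelJacobi.{w'}) (p : Nat.Primes) : Prop :=
  ∀ (K : Type) [Field K] [NumberField K] (Y : Sch K), SmoothProj Y → InjectiveFor D p K Y

/-- The same for the schemes of dimension at most `n`. -/
def AllFieldsDim (D : AbelJacobi.{w'}) (p : Nat.Primes) (n : ℕ) : Prop :=
  ∀ (K : Type) [Field K] [NumberField K] (Y : Sch K), SmoothProj Y →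
    topologicalKrullDim Y.left ≤ n → InjectiveFor D p K Y

/-- A scheme over a number field, as a scheme over `ℚ`. -/
noncomputable def res (K : Type) [Field K] [NumberField K] (Y : Sch K) : Sch ℚ :=
  (Over.map (Spec.map (CommRingCat.ofHom (algebraMap ℚ K)))).obj Y

/-- What is used about the Abel–Jacobi maps: the description of the kernel for smooth projective schemes
over `ℚ`, and Shapiro's lemma; a smooth projective scheme over `K` is smooth projective over `ℚ`. -/
structure Describes (D : AbelJacobi.{w'}) (p : Nat.Primes) (C : PairData.{w} ℚ (ℤ × ℤ) ℚ) :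
    Prop where
  kernel : ∀ Y : Sch ℚ, SmoothProj Y → (InjectiveFor D p ℚ Y ↔ BijAll C Y)
  smoothProj : ∀ (K : Type) [Field K] [NumberField K] (Y : Sch K), SmoothProj Y →
    SmoothProj (res K Y)
  shapiro : ∀ (K : Type) [Field K] [NumberField K] (Y : Sch K), SmoothProj Y →
    (InjectiveFor D p ℚ (res K Y) ↔ InjectiveFor D p K Y)

/-- The maps are isomorphisms for all hypersurfaces `T = 1` with a block of at most `m` variables. -/
def Forms (C : PairData.{w} ℚ (ℤ × ℤ) ℚ) (m : ℕ) : Prop :=
  ∀ (a b c : ℕ) (T : Fin a → Fin b → Fin c → ℚ), (a ≤ m ∨ b ≤ m ∨ c ≤ m) → BijAll C (hypS T)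

/-- **The `p`-adic étale Abel–Jacobi map and cubic hypersurfaces over `ℚ`.** See the explanations above.
The hypothesis `generated` is the statement that smooth projective schemes generate, in each dimension
(Gillet and Soulé, from Hironaka's theorem). Known cases that are used: the point, and curves. -/
theorem result {D : AbelJacobi.{w'}} {C : Nat.Primes → PairData.{w} ℚ (ℤ × ℤ) ℚ}
    (h : ∀ p, Describes D p (C p)) (weight : ∀ p, IsWeightPair (C p))
    (generated : ∀ p, WeightGen (C p)) (point : ∀ p, BijAll (C p) (aff ℚ ℚ))
    (curves : ∀ p, AllFieldsDim D p 1) (p : Nat.Primes) :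
    (AllFields D p ↔
      ∀ (a b c : ℕ) (H : Finset (Fin a × Fin b × Fin c)), BijAll (C p) (tripS ℚ H)) ∧
    (∀ n : ℕ, AllFieldsDim D p n ↔ Forms (C p) (n + 2)) ∧
    Forms (C p) 3 := by
  have e : ∀ n : ℕ, AllFieldsDim D p n ↔ Forms (C p) (n + 2) := by
    intro n
    refine Iff.trans ?_ (wg_dim (generated p) (weight p) (point p) n)
    constructor
    · intro g Y hY hn
      exact ((h p).kernel Y hY).mp (g ℚ Y hY hn)
    · intro g K _ _ Y hY hn
      have h1 := (h p).smoothProj K Y hY
      exact ((h p).shapiro K Y hY).mp (((h p).kernel _ h1).mpr (g _ h1 hn))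
  refine ⟨?_, e, (e 1).mp (curves p)⟩
  refine Iff.trans ?_ (wg_graph (generated p) (weight p) (point p) frac_rat)
  constructor
  · intro g Y hY
    exact ((h p).kernel Y hY).mp (g ℚ Y hY)
  · intro g K _ _ Y hY
    have h1 := (h p).smoothProj K Y hY
    exact ((h p).shapiro K Y hY).mp (((h p).kernel _ h1).mpr (g _ h1))

end Pool.Agent.Results.MP_386e47_ag.AllNumberFields
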