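import Pool.Agent.Q137.UO.Codim

/-!
# The `p`-adic étale Abel–Jacobi map in one codimension, and cubic hypersurfaces over `ℚ`

Let `p` be a prime number. For a smooth projective scheme `Y` over `ℚ` let `A^n(Y) = CH^n(Y) ⊗ ℚ`, and let
`B^n_p(Y)` be the image of `A^n(Y)` in `H^{2n}_cont(Y, ℚ_p(n)) / F^2`, where `F` is the filtration of the
Hochschild–Serre spectral sequence. Both are additive functors of the Chow motive of `Y`, and the kernel
of the surjection `A^n(Y) → B^n_p(Y)` is the kernel of `AJ_p : CH^n(Y)^0_ℚ → H^1(ℚ, V^{2n-1}_p(Y))`.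

For a separated scheme `X` of finite type over `ℚ` let `W(X)` be the weight complex (Gillet, Soulé; a
complex of Chow motives over `ℚ` with rational coefficients, for the cohomology with compact supports;
`W(X) = h(X)` for smooth projective `X`), and put `A^{n,i}(X) = H^i(A^n(W(X)))` and
`B_p^{n,i}(X) = H^i(B_p^n(W(X)))`. `BijAt (C p) Prod.fst n X` says that the maps
`A^{n,i}(X) → B_p^{n,i}(X)` are isomorphisms for this `n` and all `i`. For smooth projective `Y` over `ℚ`
the groups for `i ≠ 0` are zero, and `BijAt (C p) Prod.fst n Y` says that `AJ_p` is injective on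
`CH^n(Y)^0`.

A motive `M = (X, e, r)` over a number field `K` is a direct factor of `(X, 1, r)`, so question Q1 is about
the cycles of all codimensions on smooth projective schemes over `K`. A smooth projective scheme `Y` over
`K` is also a smooth projective scheme over `ℚ`, with the same Chow groups, and with the same Galois
cohomology by Shapiro's lemma.

**Theorem.** (1) For each prime `p` and each `n`, the maps `AJ_p` are injective on `CH^n(Y)^0` for all
number fields `K` and all smooth projective schemes `Y` over `K` if and only if the maps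
`A^{n+a-1,i}(X_H) → B_p^{n+a-1,i}(X_H)` are isomorphisms for all `a`, all finite sets `H` of triples
`(i, j, l)` with `1 ≤ i ≤ a` and all `i`, where `X_H` is the affine cubic hypersurface
`∑_{(i, j, l) ∈ H} x_i y_j z_l = 1` over `ℚ`. The first open case is `n = 2`, which is about the index
`a + 1`.

(2) The maps `A^{m,i} → B_p^{m,i}` are isomorphisms for `m ≤ a` and the hypersurfaces
`T(x, y, z) = 1` of all rational trilinear forms `T` in `a` variables `x` (any of the three blocks), with
any numbers of variables `y` and `z`.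
-/

set_option autoImplicit false

open CategoryTheory CategoryTheory.Limits AlgebraicGeometry Pool.Agent.Y116.UV Pool.Agent.Z125.UN
  Pool.Agent.Q193.LT Pool.Agent.Q49.WU Pool.Agent.Q137.UO

universe w w'

namespace Pool.Agent.Results.MP_386e47_ag.CodimensionByCodimension

/-- The scheme `Y` over `K`, regarded as a scheme over `ℚ`. -/
noncomputable def res (K : Type) [Field K] [NumberField K] (Y : Sch K) : Sch ℚ :=
  (Over.map (Spec.map (CommRingCat.ofHom (algebraMap ℚ K)))).obj Y

/-- The groups `CH^n(Y)^0_ℚ`, the Galois cohomology groups `H^1(K, V_p^{2n-1}(Y))`, and the `p`-adic étale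
Abel–Jacobi maps, for schemes `Y` over number fields `K`. -/
structure AbelJacobi where
  /-- the cycles homologous to zero, with rational coefficients -/
  CH0 : ∀ (K : Type) [Field K] [NumberField K], ℕ → Sch K → ModuleCat.{w'} ℚ
  /-- the Galois cohomology groups -/
  H1 : ∀ (K : Type) [Field K] [NumberField K], Nat.Primes → ℕ → Sch K → ModuleCat.{w'} ℚ
  /-- the `p`-adic étale Abel–Jacobi maps -/
  AJ : ∀ (K : Type) [Field K] [NumberField K] (p : Nat.Primes) (n : ℕ) (Y : Sch K),
    CH0 K n Y ⟶ H1 K p n Y

/-- `AJ_p` is injective on `CH^n(Y)^0_ℚ`. -/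
def InjectiveFor (D : AbelJacobi.{w'}) (p : Nat.Primes) (n : ℕ) (K : Type) [Field K] [NumberField K]
    (Y : Sch K) : Prop :=
  Function.Injective (D.AJ K p n Y).hom

/-- `AJ_p` is injective in codimension `n` for all number fields. -/
def AllFields (D : AbelJacobi.{w'}) (p : Nat.Primes) (n : ℕ) : Prop :=
  ∀ (K : Type) [Field K] [NumberField K] (Y : Sch K), SmoothProj Y → InjectiveFor D p n K Y

/-- What is used about the Abel–Jacobi maps: the description of the kernel over `ℚ`, and Shapiro's
lemma. -/
structure Describes (D : AbelJacobi.{w'}) (p : Nat.Primes) (C : PairData.{w} ℚ (ℤ × ℤ) ℚ) :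
    Prop where
  kernel : ∀ (n : ℕ) (Y : Sch ℚ), SmoothProj Y → (InjectiveFor D p n ℚ Y ↔ BijAt C Prod.fst n Y)
  smoothProj : ∀ (K : Type) [Field K] [NumberField K] (Y : Sch K), SmoothProj Y →
    SmoothProj (res K Y)
  shapiro : ∀ (n : ℕ) (K : Type) [Field K] [NumberField K] (Y : Sch K), SmoothProj Y →
    (InjectiveFor D p n ℚ (res K Y) ↔ InjectiveFor D p n K Y)

/-- **The `p`-adic étale Abel–Jacobi map, one codimension at a time.** See the explanations above. Known
cases that are used: the point, and the indices `N ≤ 1` (divisors). -/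
theorem result {D : AbelJacobi.{w'}} {C : Nat.Primes → PairData.{w} ℚ (ℤ × ℤ) ℚ}
    (h : ∀ p, Describes D p (C p)) (weight : ∀ p, IsWeightPair (C p))
    (generated : ∀ p, GenAt (C p) Prod.fst) (point : ∀ p, BijAll (C p) (aff ℚ ℚ))
    (divisors : ∀ p, ∀ N : ℤ, N ≤ 1 → ∀ Y : Sch ℚ, SmoothProj Y → BijAt (C p) Prod.fst N Y)
    (p : Nat.Primes) :
    (∀ n : ℕ, AllFields D p n ↔
      ∀ (a b c : ℕ) (H : Finset (Fin a × Fin b × Fin c)),
        BijAt (C p) Prod.fst (n + (a - 1)) (tripS ℚ H)) ∧
    ∀ (a b c : ℕ) (T : Fin a → Fin b → Fin c → ℚ) (m : ℤ), m ≤ a →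
      BijAt (C p) Prod.fst m (hypS T) := by
  refine ⟨fun n => Iff.trans ?_ (codim_graphs (generated p) (weight p) (point p) frac_rat n),
    fun a b c T m hm => low_forms (generated p) (weight p) (point p) (divisors p) T
      (by linarith)⟩
  constructor
  · intro g Y hY
    exact ((h p).kernel n Y hY).mp (g ℚ Y hY)
  · intro g K _ _ Y hY
    have h1 := (h p).smoothProj K Y hY
    exact ((h p).shapiro n K Y hY).mp (((h p).kernel n _ h1).mpr (g _ h1))

end Pool.Agent.Results.MP_386e47_ag.CodimensionByCodimension
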