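import Pool.Agent.Q72.DP.Padic

/-!
# Independence of `p` of the kernels of the `p`-adic Abel-Jacobi maps

`𝒱` is the class of smooth projective varieties over a number field `k` (or any class of smooth proper
varieties over a field `k` closed under products), `C` the Chow groups with rational coefficients (in
the form of their formal properties, `IsChowProj`). For every prime `p` (the index set `ι`), `H p` is
the étale cohomology with coefficients in `K p = ℚ_p`, a Weil cohomology theory (`IsWeilProj`), and
`N p X j ⊆ CH^j(X)` is the kernel of the `p`-adic Abel-Jacobi map (`IsAJKernel`: homologically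
trivial classes, stable under correspondences). `B` denotes the Grothendieck rings of vector bundles
(`IsKTheory`), `Rat` the class of rational varieties (`IsRationalClass`).

The injectivity of all the maps `AJ_p` implies that their kernels do not depend on `p`.

Theorem. (a) The kernel of `AJ_p` on every Chow motive is independent of `p` if and only if, for all
primes `p`, `q`, all rational varieties `V` of dimension `2 m` and all divisors `G` on `V`,
`AJ_p (G^m) = 0` implies `AJ_q (G^m) = 0`.
(b) For a single variety `X` the kernels of the maps `AJ_p` on all `CH^j(X)` are independent of `p` if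
and only if every vector bundle on `X` whose Chern classes are in the kernels of `AJ_p` has its Chern
classes in the kernels of `AJ_q`, if and only if, for all projective bundles `P → X` of vector
bundles of rank `m` with tautological class `ξ`, `AJ_p (ξ^m) = 0` implies `AJ_q (ξ^m) = 0`.
-/

open CategoryTheory AlgebraicGeometry

set_option autoImplicit false

universe u v w

namespace Pool.Agent.Results.MP_386e47_ag.IndependenceOfPrime

open Pool.Agent.H914 Pool.Agent.W492.BB Pool.Agent.TH133 Pool.Agent.Q72.DP

/-- The independence of the prime `p` of the kernel of the `p`-adic Abel-Jacobi map is tested on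
powers of divisors. -/
theorem result {k : Type u} [Field k] {𝒱 : VarClass k} (C : TheoryData.{u, v, 0} 𝒱 ℚ)
    [IsChowProj C] {ι : Type} (K : ι → Type w) [∀ p, Field (K p)]
    (H : ∀ p, WeilTheoryData.{u, v, w} C (K p)) [∀ p, IsWeilProj (H p)]
    (B : BundleData C) (hB : B.IsKTheory) (Rat : 𝒱.Obj → Prop) (hRat : IsRationalClass B Rat)
    (N : ι → ∀ X : 𝒱.Obj, ℕ → Submodule ℚ (C.A X)) (hN : ∀ p, IsAJKernel (H p) (N p)) :
    ((∀ p q, MotivesAgree (N p) (N q)) ↔ ∀ p q, MiddleLe Rat (N p) (N q)) ∧
      ∀ X : 𝒱.Obj, [∀ p q, ∀ j : ℕ, N p X j = N q X j, ∀ p q, ChernLe B X (N p) (N q),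
        ∀ p q, TautLe B X (N p) (N q)].TFAE :=
  ⟨indep_tfae hB hRat hN, fun X => indep_at hB hN X⟩

end Pool.Agent.Results.MP_386e47_ag.IndependenceOfPrime
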