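import Pool.Agent.Q72.DP.Padic

/-!
# The `p`-adic Abel-Jacobi maps for all motives: one prime and powers of divisors

`𝒱` is the class of smooth projective varieties over a number field `k` (or any class of smooth proper
varieties over a field `k` closed under products), `C` the Chow groups with rational coefficients (in
the form of their formal properties, `IsChowProj`). For every prime `p` (the index set `ι`), `H p` is
the étale cohomology with coefficients in `K p = ℚ_p`, a Weil cohomology theory (`IsWeilProj`), and
`N p X j ⊆ CH^j(X)` is the kernel of the `p`-adic Abel-Jacobi map (`IsAJKernel`: homologically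
trivial classes, stable under correspondences). `B` denotes the Grothendieck rings of vector bundles
(`IsKTheory`), `Rat` the class of rational varieties (`IsRationalClass`).

Theorem. Fix one prime `p₀`. The following are equivalent:
* for all primes `p` the map `AJ_p` is injective for all Chow motives `(X, e, n)` over `k`;
* `AJ_{p₀}` is injective for all Chow motives, and, for all `p`, all rational varieties `V` of
  dimension `2 m` and all divisors `G` on `V`: if `AJ_p (G^m) = 0` then `AJ_{p₀} (G^m) = 0`;
* for all `p`, all rational varieties `V` of dimension `2 m` and all divisors `G` on `V`: if `G^m` is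
  homologically trivial with `AJ_p (G^m) = 0` then `G^m = 0` in `CH^m(V)`.
-/

open CategoryTheory AlgebraicGeometry

set_option autoImplicit false

universe u v w

namespace Pool.Agent.Results.MP_386e47_ag.OnePrimeAndPowers

open Pool.Agent.H914 Pool.Agent.W492.BB Pool.Agent.TH133 Pool.Agent.Q72.DP

/-- Injectivity of the `p`-adic Abel-Jacobi maps for all primes and all Chow motives is tested on
powers of divisors on rational varieties, and it follows from the injectivity for one prime and a
comparison of the kernels on these powers. -/
theorem result {k : Type u} [Field k] {𝒱 : VarClass k} (C : TheoryData.{u, v, 0} 𝒱 ℚ)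
    [IsChowProj C] {ι : Type} (K : ι → Type w) [∀ p, Field (K p)]
    (H : ∀ p, WeilTheoryData.{u, v, w} C (K p)) [∀ p, IsWeilProj (H p)]
    (B : BundleData C) (hB : B.IsKTheory) (Rat : 𝒱.Obj → Prop) (hRat : IsRationalClass B Rat)
    (N : ι → ∀ X : 𝒱.Obj, ℕ → Submodule ℚ (C.A X)) (hN : ∀ p, IsAJKernel (H p) (N p)) (p₀ : ι) :
    [∀ p, MotivesInjective (N p), MotivesInjective (N p₀) ∧ ∀ p, MiddleLe Rat (N p) (N p₀),
      ∀ p, MiddleRational (N p) Rat].TFAE :=
  padic_tfae hB hRat hN p₀

end Pool.Agent.Results.MP_386e47_ag.OnePrimeAndPowers
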